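import Pool.Agent.L7h47.DF.Stm

set_option autoImplicit false

/-! Part CRT of project DF. -/

namespace Pool.Agent.L7h89.DF

open Pool.Agent.L7h47.DF Finset

/-- the number of the classes which avoid one class modulo every prime of `U` -/
theorem count_crt (U : Finset ℕ) (r : ℕ → ℕ) (hU : ∀ u ∈ U, u.Prime)
    (P : ℕ → Prop) [DecidablePred P] (hP : ∀ k, P k ↔ ∀ u ∈ U, ¬ k ≡ r u [MOD u]) :
    Nat.count P (∏ u ∈ U, u) = ∏ u ∈ U, (u - 1) := by
  classical
  have hne : ∀ i : U, NeZero (i : ℕ) := fun i => ⟨(hU i i.2).ne_zero⟩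
  have hcop : Pairwise (Function.onFun Nat.Coprime (fun i : U => (i : ℕ))) := by
    intro i j hij
    exact (Nat.coprime_primes (hU i i.2) (hU j j.2)).2 fun h => hij (Subtype.ext h)
  have hM : ∏ i : U, (i : ℕ) = ∏ u ∈ U, u := Finset.prod_coe_sort U (fun u => u)
  rw [← hM]
  have hM0 : NeZero (∏ i : U, (i : ℕ)) := ⟨Finset.prod_ne_zero_iff.2 fun i _ => (hne i).out⟩
  set e := ZMod.prodEquivPi (fun i : U => (i : ℕ)) hcop with he
  have hek : ∀ (k : ℕ) (i : U), e (k : ZMod (∏ i : U, (i : ℕ))) i = (k : ZMod (i : ℕ)) := by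
    intro k i
    rw [map_natCast]
    rfl
  have h1 : Nat.count P (∏ i : U, (i : ℕ)) =
      (Finset.univ.filter (fun x : ZMod (∏ i : U, (i : ℕ)) =>
        ∀ i : U, e x i ≠ (r i : ZMod (i : ℕ)))).card := by
    rw [Nat.count_eq_card_filter_range]
    refine Finset.card_bij (fun k _ => (k : ZMod (∏ i : U, (i : ℕ)))) ?_ ?_ ?_
    · intro k hk
      rw [Finset.mem_filter] at hk ⊢
      refine ⟨Finset.mem_univ _, fun i h => ?_⟩
      rw [hek, ZMod.natCast_eq_natCast_iff] at h
      exact (hP k).1 hk.2 i i.2 h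
    · intro k hk k' hk' h
      rw [Finset.mem_filter, Finset.mem_range] at hk hk'
      rw [ZMod.natCast_eq_natCast_iff'] at h
      rwa [Nat.mod_eq_of_lt hk.1, Nat.mod_eq_of_lt hk'.1] at h
    · intro x hx
      rw [Finset.mem_filter] at hx
      refine ⟨x.val, ?_, ZMod.natCast_zmod_val x⟩
      rw [Finset.mem_filter, Finset.mem_range]
      refine ⟨ZMod.val_lt x, (hP _).2 fun u hu h => hx.2 ⟨u, hu⟩ ?_⟩
      have h2 := hek x.val ⟨u, hu⟩
      rw [ZMod.natCast_zmod_val] at h2
      rw [h2]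
      exact (ZMod.natCast_eq_natCast_iff _ _ _).2 h
  have h2 : (Finset.univ.filter (fun x : ZMod (∏ i : U, (i : ℕ)) =>
        ∀ i : U, e x i ≠ (r i : ZMod (i : ℕ)))).card =
      (Fintype.piFinset fun i : U => (Finset.univ : Finset (ZMod (i : ℕ))).erase
        (r i : ZMod (i : ℕ))).card := by
    refine Finset.card_bij (fun x _ => e x) ?_ ?_ ?_
    · intro x hx
      rw [Finset.mem_filter] at hx
      rw [Fintype.mem_piFinset]
      intro i
      rw [Finset.mem_erase]
      exact ⟨hx.2 i, Finset.mem_univ _⟩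
    · intro x _ y _ h
      exact e.injective h
    · intro y hy
      rw [Fintype.mem_piFinset] at hy
      refine ⟨e.symm y, ?_, e.apply_symm_apply y⟩
      rw [Finset.mem_filter]
      refine ⟨Finset.mem_univ _, fun i => ?_⟩
      rw [e.apply_symm_apply]
      exact (Finset.mem_erase.1 (hy i)).1
  rw [h1, h2, Fintype.card_piFinset]
  rw [← Finset.prod_coe_sort U (fun u => u - 1)]
  refine Finset.prod_congr rfl fun i _ => ?_
  rw [Finset.card_erase_of_mem (Finset.mem_univ _), Finset.card_univ, ZMod.card]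

theorem s_CRT : S_CRT := by
  intro U r hU
  classical
  set P : ℕ → Prop := fun k => ∀ u ∈ U, ¬ k ≡ r u [MOD u] with hP
  set M : ℕ := ∏ u ∈ U, u with hM
  set N : ℕ := ∏ u ∈ U, (u - 1) with hN
  have hM0 : 0 < M := Finset.prod_pos fun u hu => (hU u hu).pos
  have hMN : Nat.count P M = N := count_crt U r hU P fun k => Iff.rfl
  have hper : ∀ t k, P (M * t + k) ↔ P k := by
    intro t k
    have hmod : ∀ u ∈ U, M * t + k ≡ k [MOD u] := by
      intro u hu
      have h1 : M * t ≡ 0 [MOD u] :=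
        (Nat.modEq_zero_iff_dvd).2 ((Finset.dvd_prod_of_mem _ hu).mul_right t)
      simpa using h1.add_right k
    constructor
    · intro h u hu h2
      exact h u hu ((hmod u hu).trans h2)
    · intro h u hu h2
      exact h u hu ((hmod u hu).symm.trans h2)
  have hmul : ∀ t, Nat.count P (M * t) = t * N := by
    intro t
    induction t with
    | zero => simp
    | succ t ih =>
      rw [Nat.mul_succ, Nat.count_add, ih]
      have h1 : Nat.count (fun k => P (M * t + k)) M = Nat.count P M := by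
        rw [Nat.count_eq_card_filter_range, Nat.count_eq_card_filter_range]
        congr 1
        exact Finset.filter_congr fun k _ => hper t k
      rw [h1, hMN]
      ring
  have hprod : (∏ u ∈ U, (1 - 1 / (u : ℝ))) = (N : ℝ) / M := by
    rw [hN, hM, Nat.cast_prod, Nat.cast_prod, ← Finset.prod_div_distrib]
    refine Finset.prod_congr rfl fun u hu => ?_
    have h1 : (1 : ℕ) ≤ u := (hU u hu).one_lt.le
    have h2 : (u : ℝ) ≠ 0 := Nat.cast_ne_zero.2 (hU u hu).ne_zero
    rw [Nat.cast_sub h1, Nat.cast_one]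
    field_simp
  refine ⟨N, fun X => ?_⟩
  have h1 : ((Finset.range (X + 1)).filter fun k => ∀ u ∈ U, ¬ k ≡ r u [MOD u]).card =
      Nat.count P (X + 1) := by
    rw [Nat.count_eq_card_filter_range]
  have h2 : Nat.count P (X + 1) ≤ (X / M + 1) * N := by
    rw [← hmul]
    exact Nat.count_monotone P (Nat.lt_mul_div_succ X hM0)
  rw [h1, hprod]
  have h3 : ((Nat.count P (X + 1) : ℕ) : ℝ) ≤ (((X / M + 1) * N : ℕ) : ℝ) := by exact_mod_cast h2
  have h4 : ((X / M : ℕ) : ℝ) ≤ (X : ℝ) / M := Nat.cast_div_le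
  have h5 : (0 : ℝ) ≤ N := Nat.cast_nonneg N
  push_cast at h3
  calc ((Nat.count P (X + 1) : ℕ) : ℝ) ≤ (((X / M : ℕ) : ℝ) + 1) * N := by
        simpa using h3
    _ ≤ ((X : ℝ) / M + 1) * N := mul_le_mul_of_nonneg_right (by linarith) h5
    _ = (N : ℝ) / M * X + N := by ring

end Pool.Agent.L7h89.DF
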